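import Mathlib
import Pool.Agent.H15.Weight3

/-!
A nonconstant entire curve in a closed subset of projective space, with high contact along the
coordinate hyperplanes, is moved inside that set by a nontrivial one-parameter subgroup of the
torus.
-/

open MvPolynomial

namespace Pool.Agent.H15.Extra.ContactOrbit

/-- The coordinates of `x` which do not vanish identically. -/
noncomputable def active {N : ℕ} (x : ℂ → Fin (N + 1) → ℂ) : Finset (Fin (N + 1)) :=
  (Set.toFinite {i | ∃ z, x z i ≠ 0}).toFinset

/-- Whenever a coordinate which does not vanish identically vanishes at `z`, the orders of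
vanishing at `z` of the coordinates which do not vanish identically add up to at least `m`. -/
def Contact {N : ℕ} (m : ℕ) (x : ℂ → Fin (N + 1) → ℂ) : Prop :=
  ∀ z, (∃ i ∈ active x, x z i = 0) →
    (m : ℕ∞) ≤ ∑ i ∈ active x, analyticOrderAt (fun w => x w i) z

/-- Let `X` be the closed subset of projective space of dimension `N` defined by a set `A` of
forms of degree at most `d` with at most `p` terms each, and let `[x z]` be a nonconstant entire
curve in `X` with contact at least `m`. Then some one-parameter subgroup `k`, not constant on the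
active coordinates of `x`, moves the curve inside `X`. -/
theorem result (N d p m : ℕ) (hm : N * (N + 1) * d ^ (N - 1) * ((p - 1) * (p - 2)) < 2 * m)
    (A : Set (MvPolynomial (Fin (N + 1)) ℂ))
    (hA : ∀ P ∈ A, (∃ e ≤ d, P.IsHomogeneous e) ∧ P.support.card ≤ p)
    (x : ℂ → Fin (N + 1) → ℂ) (hx : Differentiable ℂ x) (hx0 : ∀ z, x z ≠ 0)
    (hxA : ∀ P ∈ A, ∀ z, eval (x z) P = 0) (hmov : ∃ z w, ∀ c : ℂ, x z ≠ c • x w)
    (hcon : Contact m x) :
    ∃ k : Fin (N + 1) → ℤ, (∃ i ∈ active x, ∃ j ∈ active x, k i ≠ k j) ∧
      ∀ z, ∀ t : ℂ, t ≠ 0 → ∀ P ∈ A, eval (fun i => t ^ k i * x z i) P = 0 :=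
  Pool.Agent.H15.exists_orbit_weight hx hx0 hmov (active x) (fun i => by simp [active]) hcon hm
    A hA hxA

end Pool.Agent.H15.Extra.ContactOrbit
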