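import Mathlib
import Pool.Agent.H15.Geom

/-!
Entire curves in a projective variety with high contact along the coordinate hyperplanes, entire
curves in its cyclic covers branched along the coordinate hyperplanes, and the stabiliser of the
variety in the torus.
-/

open MvPolynomial

namespace Pool.Agent.H15.Extra.CyclicCover

/-- `x` is the reduced homogeneous form of an entire curve `[x z]` in projective space: it is
holomorphic without zeros, and the curve lies in the zero set of the ideal `I`. -/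
def IsCurve {N : ℕ} (I : Ideal (MvPolynomial (Fin (N + 1)) ℂ)) (x : ℂ → Fin (N + 1) → ℂ) : Prop :=
  Differentiable ℂ x ∧ (∀ z, x z ≠ 0) ∧ ∀ z, ∀ P ∈ I, eval (x z) P = 0

/-- The curve `[x z]` in projective space is not constant. -/
def Moves {N : ℕ} (x : ℂ → Fin (N + 1) → ℂ) : Prop := ∃ z w, ∀ c : ℂ, x z ≠ c • x w

/-- All zeros of the product of the coordinates of `x` have order at least `m`. -/
def Contact {N : ℕ} (m : ℕ) (x : ℂ → Fin (N + 1) → ℂ) : Prop :=
  ∀ z, ∏ i, x z i = 0 → (m : ℕ∞) ≤ analyticOrderAt (fun w => ∏ i, x w i) z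

/-- The only one-parameter subgroups of the torus which preserve the set of points of the
variety of `I` without zero coordinates are the scalar ones. -/
def FiniteStabiliser {N : ℕ} (I : Ideal (MvPolynomial (Fin (N + 1)) ℂ)) : Prop :=
  ∀ k : Fin (N + 1) → ℤ,
    (∀ q : Fin (N + 1) → ℂ, (∀ i, q i ≠ 0) → (∀ P ∈ I, eval q P = 0) →
      ∀ t : ℂ, t ≠ 0 → ∀ P ∈ I, eval (fun i => t ^ k i * q i) P = 0) →
    ∀ i j, k i = k j

/-- The cyclic cover `w ^ m = ∏ x i` of the affine part `x 0 = 1` of the variety of `I`. -/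
def Cover {N : ℕ} (I : Ideal (MvPolynomial (Fin (N + 1)) ℂ)) (m : ℕ) :
    Set ((Fin (N + 1) → ℂ) × ℂ) :=
  {y | y.1 0 = 1 ∧ (∀ P ∈ I, eval y.1 P = 0) ∧ y.2 ^ m = ∏ i, y.1 i}

/-- All nonconstant entire curves in the cyclic cover of order `m` lie in a fixed hypersurface
`G = 0` for a form `G` which does not vanish on the variety of `I`. -/
def CoverPseudoHyperbolic {N : ℕ} (I : Ideal (MvPolynomial (Fin (N + 1)) ℂ)) (m : ℕ) : Prop :=
  ∃ (e : ℕ) (G : MvPolynomial (Fin (N + 1)) ℂ), G.IsHomogeneous e ∧ G ∉ I ∧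
    ∀ f : ℂ → (Fin (N + 1) → ℂ) × ℂ, Differentiable ℂ f → (∀ z, f z ∈ Cover I m) →
      (∃ z z', f z ≠ f z') → ∀ z, eval (f z).1 G = 0

open Pool.Agent.H15

variable {N : ℕ}

lemma const_of_pow_const {g : ℂ → ℂ} (hg : Differentiable ℂ g) {m : ℕ} (hm : m ≠ 0) {c : ℂ}
    (hc : ∀ z, g z ^ m = c) (z z' : ℂ) : g z = g z' := by
  by_cases h0 : c = 0
  · have h1 : ∀ z, g z = 0 := fun z => (pow_eq_zero_iff hm).1 (by rw [hc z, h0])
    rw [h1 z, h1 z']
  · apply is_const_of_deriv_eq_zero hg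
    intro z
    have h1 : HasDerivAt (fun z => g z ^ m) (m * g z ^ (m - 1) * deriv g z) z :=
      (hg z).hasDerivAt.pow m
    have h2 : (fun z => g z ^ m) = fun _ => c := funext hc
    rw [h2] at h1
    have h3 := h1.unique (hasDerivAt_const z _)
    have h4 : g z ≠ 0 := by
      intro h
      apply h0
      rw [← hc z, h, zero_pow hm]
    exact (mul_eq_zero.1 h3).resolve_left
      (mul_ne_zero (Nat.cast_ne_zero.2 hm) (pow_ne_zero _ h4))

lemma eval_smul_form {P : MvPolynomial (Fin (N + 1)) ℂ} {e : ℕ} (hP : P.IsHomogeneous e) (c : ℂ)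
    (q : Fin (N + 1) → ℂ) : eval (fun i => c * q i) P = c ^ e * eval q P := by
  rw [eval_eq', eval_eq', Finset.mul_sum]
  refine Finset.sum_congr rfl fun a ha => ?_
  have h1 := sum_eq_of_mem_support hP ⟨a, ha⟩
  simp_rw [mul_pow]
  rw [Finset.prod_mul_distrib, Finset.prod_pow_eq_pow_sum, h1]
  ring

lemma eval_smul_ideal {I : Ideal (MvPolynomial (Fin (N + 1)) ℂ)}
    {S : Set (MvPolynomial (Fin (N + 1)) ℂ)} (hS : I = Ideal.span S)
    (hSd : ∀ P ∈ S, ∃ e, P.IsHomogeneous e) (c : ℂ) {q : Fin (N + 1) → ℂ}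
    (hq : ∀ P ∈ I, eval q P = 0) : ∀ P ∈ I, eval (fun i => c * q i) P = 0 := by
  have h : I ≤ RingHom.ker (eval (fun i => c * q i)) := by
    rw [hS, Ideal.span_le]
    intro P hP
    obtain ⟨e, he⟩ := hSd P hP
    show eval (fun i => c * q i) P = 0
    rw [eval_smul_form he, hq P (by rw [hS]; exact Ideal.subset_span hP), mul_zero]
  exact fun P hP => h hP

/-- Without finiteness of the stabiliser, every hypersurface is avoided by some orbit. -/
lemma exists_orbit {I : Ideal (MvPolynomial (Fin (N + 1)) ℂ)} (hI : I.IsPrime)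
    (hX : ∀ i, X i ∉ I) (hst : ¬ FiniteStabiliser I) {G : MvPolynomial (Fin (N + 1)) ℂ}
    (hG : G ∉ I) : ∃ (k : Fin (N + 1) → ℤ) (q : Fin (N + 1) → ℂ), (∃ i j, k i ≠ k j) ∧
      (∀ i, q i ≠ 0) ∧ eval q G ≠ 0 ∧
      ∀ t : ℂ, t ≠ 0 → ∀ P ∈ I, eval (fun i => t ^ k i * q i) P = 0 := by
  unfold FiniteStabiliser at hst
  push Not at hst
  obtain ⟨k, hk, i, j, hij⟩ := hst
  obtain ⟨q, hq0, hqI, hqG⟩ := exists_point hI hX hG
  exact ⟨k, q, ⟨i, j, hij⟩, hq0, hqG, hk q hq0 hqI⟩

/-- Let `I` be a prime ideal, generated by forms of degree at most `d` with at most `p` terms, of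
a projective variety which lies in no coordinate hyperplane. -/
theorem result (N d p : ℕ) (I : Ideal (MvPolynomial (Fin (N + 1)) ℂ)) (hI : I.IsPrime)
    (S : Set (MvPolynomial (Fin (N + 1)) ℂ)) (hS : I = Ideal.span S)
    (hSd : ∀ P ∈ S, (∃ e ≤ d, P.IsHomogeneous e) ∧ P.support.card ≤ p) (hX : ∀ i, X i ∉ I) :
    List.TFAE [
      FiniteStabiliser I,
      ∃ (e : ℕ) (G : MvPolynomial (Fin (N + 1)) ℂ),
        e ≤ N + 1 + 2 ^ p * d * (d + 1) ^ (N + 1) ∧ G.IsHomogeneous e ∧ G ∉ I ∧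
        ∀ m : ℕ, N * (N + 1) * d ^ (N - 1) * ((p - 1) * (p - 2)) < 2 * m →
          ∀ x, IsCurve I x → Moves x → Contact m x → ∀ z, eval (x z) G = 0,
      ∀ m : ℕ, N * (N + 1) * d ^ (N - 1) * ((p - 1) * (p - 2)) < 2 * m →
        CoverPseudoHyperbolic I m,
      ∃ m : ℕ, 1 ≤ m ∧ CoverPseudoHyperbolic I m,
      ∃ (e : ℕ) (G : MvPolynomial (Fin (N + 1)) ℂ), G.IsHomogeneous e ∧ G ∉ I ∧
        ∀ x, IsCurve I x → Moves x → (∀ z i, x z i ≠ 0) → ∀ z, eval (x z) G = 0] := by
  classical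
  have hSd' : ∀ P ∈ S, ∃ e, P.IsHomogeneous e := fun P hP => by
    obtain ⟨e, -, he⟩ := (hSd P hP).1
    exact ⟨e, he⟩
  tfae_have 1 → 2 := by
    intro h
    obtain ⟨e, G, he, hGe, hGI, hG⟩ := exists_hypersurface hI S hS hSd hX h
    exact ⟨e, G, he, hGe, hGI, fun m hm x hx hmov hcon => hG m hm x hx.1 hx.2.1 hx.2.2 hmov hcon⟩
  tfae_have 2 → 3 := by
    rintro ⟨e, G, -, hGe, hGI, hG⟩ m hm
    have hm0 : m ≠ 0 := by
      rintro rfl
      simp at hm
    refine ⟨e, G, hGe, hGI, fun f hf hfm hnc => ?_⟩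
    have hx : Differentiable ℂ (fun z => (f z).1) := hf.fst
    have hw : Differentiable ℂ (fun z => (f z).2) := hf.snd
    refine hG m hm (fun z => (f z).1) ⟨hx, ?_, fun z => (hfm z).2.1⟩ ?_ ?_
    · intro z hz
      have h1 : (f z).1 0 = 1 := (hfm z).1
      have h2 : (f z).1 = 0 := hz
      rw [h2] at h1
      simp at h1
    · by_contra hcon
      unfold Moves at hcon
      push Not at hcon
      have hxc : ∀ z z', (f z).1 = (f z').1 := by
        intro z z'
        obtain ⟨c, hc⟩ := hcon z z'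
        have h1 := congrFun hc 0
        rw [Pi.smul_apply, (hfm z).1, (hfm z').1, smul_eq_mul, mul_one] at h1
        rw [hc, ← h1, one_smul]
      obtain ⟨z, z', hne⟩ := hnc
      apply hne
      refine Prod.ext (hxc z z') ?_
      refine const_of_pow_const hw hm0 (c := ∏ i, (f 0).1 i) (fun z => ?_) z z'
      rw [(hfm z).2.2, hxc z 0]
    · intro z hz
      have hfun : (fun w => ∏ i, (f w).1 i) = (fun w => (f w).2) ^ m := by
        ext w
        rw [Pi.pow_apply]
        exact (hfm w).2.2.symm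
      show (m : ℕ∞) ≤ analyticOrderAt (fun w => ∏ i, (f w).1 i) z
      rw [hfun, analyticOrderAt_pow (hw.analyticAt z)]
      have hz' : (f z).2 = 0 := by
        have h1 : (f z).2 ^ m = 0 := by rw [(hfm z).2.2]; exact hz
        exact (pow_eq_zero_iff hm0).1 h1
      have h1 : 1 ≤ analyticOrderAt (fun w => (f w).2) z := by
        rw [Order.one_le_iff_pos, pos_iff_ne_zero]
        exact (hw.analyticAt z).analyticOrderAt_ne_zero.2 hz'
      calc (m : ℕ∞) = m • 1 := by simp
        _ ≤ m • analyticOrderAt (fun w => (f w).2) z := nsmul_le_nsmul_right h1 m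
  tfae_have 3 → 4 := fun h =>
    ⟨N * (N + 1) * d ^ (N - 1) * ((p - 1) * (p - 2)) + 1, by omega, h _ (by omega)⟩
  tfae_have 4 → 1 := by
    rintro ⟨m, hm, e, G, hGe, hGI, hG⟩
    by_contra hst
    obtain ⟨k, q, ⟨i, j, hij⟩, hq0, hqG, hk⟩ := exists_orbit hI hX hst hGI
    -- normalise the zeroth coordinate
    set k' : Fin (N + 1) → ℤ := fun i => k i - k 0 with hk'
    set q' : Fin (N + 1) → ℂ := fun i => (q 0)⁻¹ * q i with hq'
    have hq'0 : ∀ i, q' i ≠ 0 := fun i => mul_ne_zero (inv_ne_zero (hq0 0)) (hq0 i)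
    have hq'G : eval q' G ≠ 0 := by
      rw [hq', eval_smul_form hGe]
      exact mul_ne_zero (pow_ne_zero _ (inv_ne_zero (hq0 0))) hqG
    have hkq : ∀ t : ℂ, t ≠ 0 → ∀ P ∈ I, eval (fun i => t ^ k' i * q' i) P = 0 := by
      intro t ht
      have h1 := eval_smul_ideal hS hSd' (t ^ (-k 0) * (q 0)⁻¹) (hk t ht)
      have h2 : (fun i => t ^ (-k 0) * (q 0)⁻¹ * (t ^ k i * q i))
          = fun i => t ^ k' i * q' i := by
        ext i
        simp only [hk', hq']
        rw [sub_eq_add_neg, zpow_add₀ ht]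
        ring
      rw [← h2]
      exact h1
    obtain ⟨ω, hω⟩ := IsAlgClosed.exists_pow_nat_eq (∏ i, q' i) (show 0 < m by omega)
    have hm0 : (m : ℂ) ≠ 0 := Nat.cast_ne_zero.2 (by omega)
    have hij' : k' i ≠ k' j := by
      simp only [hk']
      omega
    have h1 := hG (fun z => (orbit k' q' z, Complex.exp ((∑ i, (k' i : ℂ)) / m * z) * ω))
      ((differentiable_orbit k' q').prodMk (by fun_prop))
      (fun z => ⟨by simp [orbit, hk', hq', hq0 0], fun P hP => by
        have h2 : orbit k' q' z = fun i => Complex.exp z ^ k' i * q' i :=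
          funext (orbit_eq k' q' z)
        show eval (orbit k' q' z) P = 0
        rw [h2]
        exact hkq _ (Complex.exp_ne_zero _) P hP, by
        show (Complex.exp ((∑ i, (k' i : ℂ)) / m * z) * ω) ^ m = ∏ i, orbit k' q' z i
        rw [mul_pow, hω, ← Complex.exp_nat_mul]
        have h3 : ∏ i, orbit k' q' z i = (∏ i, Complex.exp (k' i * z)) * ∏ i, q' i :=
          Finset.prod_mul_distrib
        rw [h3, ← Complex.exp_sum]
        congr 2
        rw [← Finset.sum_mul]
        field_simp⟩)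
      (by
        obtain ⟨z, z', h⟩ := orbit_moves hq'0 hij'
        exact ⟨z, z', fun h' => h 1 (by rw [one_smul]; exact congrArg Prod.fst h')⟩) 0
    apply hq'G
    rw [← orbit_zero k' q']
    exact h1
  tfae_have 2 → 5 := by
    rintro ⟨e, G, -, hGe, hGI, hG⟩
    refine ⟨e, G, hGe, hGI, fun x hx hmov h0 => ?_⟩
    refine hG (N * (N + 1) * d ^ (N - 1) * ((p - 1) * (p - 2)) + 1) (by omega) x hx hmov ?_
    intro z hz
    exact absurd hz (Finset.prod_ne_zero_iff.2 fun i _ => h0 z i)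
  tfae_have 5 → 1 := by
    rintro ⟨e, G, -, hGI, hG⟩
    by_contra hst
    obtain ⟨k, q, ⟨i, j, hij⟩, hq0, hqG, hk⟩ := exists_orbit hI hX hst hGI
    have h1 := hG (orbit k q) ⟨differentiable_orbit k q,
      fun z hz => orbit_ne k hq0 z 0 (congrFun hz 0), fun z P hP => by
        have h2 : orbit k q z = fun i => Complex.exp z ^ k i * q i := funext (orbit_eq k q z)
        rw [h2]
        exact hk _ (Complex.exp_ne_zero _) P hP⟩ (orbit_moves hq0 hij) (orbit_ne k hq0) 0
    rw [orbit_zero] at h1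
    exact hqG h1
  tfae_finish

end Pool.Agent.H15.Extra.CyclicCover
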